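import Pool.Agent.H733.OB.Main2
import Pool.Agent.H733.OB.GNumber

/-!
# Winning strategies for player I on o-bounded groups: the inequality 𝔤 ≤ 𝔯

Let `G` be an o-bounded topological group on which player I has a winning strategy in the
Open-Finite game. If `G` is `SigmaTame`, then the groupwise density number `𝔤` is at most the
reaping number `𝔯`, hence at most the ultrafilter number `𝔲`. The class `SigmaTame` contains all
topological groups whose topology is induced by homomorphisms into SIN-groups and locally compact
groups (subgroups of products of such groups), and all groups that are countable unions of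
uniformly balanced sets.
-/

universe u

namespace Pool.Agent.Results.MP_b00c97_gt.ProductsSINLocallyCompact

open Pool.Agent.H733.OB

/-- countable unions of uniformly balanced sets satisfy the hypothesis of `result`. -/
theorem sigmaBalanced_case (G : Type u) [Group G] [TopologicalSpace G] [IsTopologicalGroup G]
    (h : SigmaBalanced G) : SigmaTame G := h.sigmaTame

/-- the groupwise density number is not degenerate -/
theorem gNumber_uncountable : Cardinal.aleph0 < gNumber := aleph0_lt_gNumber

theorem result :
    (∀ (G : Type u) [Group G] [TopologicalSpace G] [IsTopologicalGroup G],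
      SigmaTame G → OBounded (Set.univ : Set G) → PlayerIWins (Set.univ : Set G) →
        gNumber ≤ rNumber ∧ rNumber ≤ uNumber) ∧
    (∀ (G : Type u) [Group G] [TopologicalSpace G] [IsTopologicalGroup G]
      (ι : Type u) (H : ι → Type u) [∀ i, Group (H i)] [∀ i, TopologicalSpace (H i)]
      [∀ i, IsTopologicalGroup (H i)] (f : G →* ∀ i, H i),
      Topology.IsInducing f → (∀ i, SIN (H i) ∨ LocallyCompactSpace (H i)) → SigmaTame G) := by
  refine ⟨fun G _ _ _ hG hob hI => ⟨gNumber_le_rNumber2 hG hob hI, rNumber_le_uNumber⟩,
    fun G _ _ _ ι H _ _ _ f hf hH => ?_⟩
  refine (tame_of_inducing f hf fun i => ?_).sigmaTame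
  rcases hH i with h | h
  · exact h.tame
  · exact tame_of_locallyCompact

end Pool.Agent.Results.MP_b00c97_gt.ProductsSINLocallyCompact
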